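import Pool.Agent.helper75.IQ.Spec

/-!
# MP_84f457_gt: row iq:IBP
-/

set_option autoImplicit false

namespace Pool.Agent.helper75.IQ

open MeasureTheory Set

theorem IBP_smooth (κ : ℝ) (F : Sp → ℝ) (hF : ContDiff ℝ 1 F) (hs : tsupport F ⊆ space κ) :
    ContDiff ℝ 1 (fun q : Sp => lam κ (nq (pr q)) * F q) := by
  rw [contDiff_iff_contDiffAt]
  intro p
  by_cases hp : p ∈ tsupport F
  · have h1 : (1 + κ / 4 * nq (pr p)) ≠ 0 := ne_of_gt (hs hp)
    have h2 : ContDiffAt ℝ 1 (fun q : Sp => 1 + κ / 4 * nq (pr q)) p := by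
      unfold nq pr
      fun_prop
    have h3 : ContDiffAt ℝ 1 (fun q : Sp => lam κ (nq (pr q))) p := h2.inv h1
    exact h3.mul hF.contDiffAt
  · have h1 : F =ᶠ[nhds p] 0 := notMem_tsupport_iff_eventuallyEq.1 hp
    have h2 : (fun q : Sp => lam κ (nq (pr q)) * F q) =ᶠ[nhds p] fun _ => (0 : ℝ) := by
      filter_upwards [h1] with q hq
      rw [hq]
      exact mul_zero _
    exact contDiffAt_const.congr_of_eventuallyEq h2

theorem IBP_cs {g F : Sp → ℝ} (hs : HasCompactSupport F) :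
    HasCompactSupport (fun q : Sp => g q * F q) := hs.mul_left

theorem IBP_ts (g F : Sp → ℝ) (κ : ℝ) (hs : tsupport F ⊆ space κ) :
    tsupport (fun q : Sp => g q * F q) ⊆ space κ :=
  (tsupport_mul_subset_right (f := g) (g := F)).trans hs

theorem IBP_int1 (φ F : Sp → ℝ) (hφ : ContDiff ℝ 1 φ) (hF : ContDiff ℝ 1 F)
    (hs : HasCompactSupport F) (v : Sp) : Integrable (fun p => φ p * fderiv ℝ F p v) := by
  refine Continuous.integrable_of_hasCompactSupport ?_ ?_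
  · exact hφ.continuous.mul ((hF.continuous_fderiv (by norm_num)).clm_apply continuous_const)
  · exact (hs.fderiv_apply ℝ v).mul_left

theorem IBP_int2 (φ F : Sp → ℝ) (hφ : ContDiff ℝ 1 φ) (hF : ContDiff ℝ 1 F)
    (hs : HasCompactSupport F) (v : Sp) : Integrable (fun p => fderiv ℝ φ p v * F p) := by
  refine Continuous.integrable_of_hasCompactSupport ?_ hs.mul_left
  exact ((hφ.continuous_fderiv (by norm_num)).clm_apply continuous_const).mul hF.continuous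

theorem IBP_haar : (volume : Measure Sp).IsAddHaarMeasure := by
  have h1 : (volume : Measure (ℝ × ℝ)).IsAddHaarMeasure := by
    rw [Measure.volume_eq_prod]
    infer_instance
  rw [Measure.volume_eq_prod]
  infer_instance

theorem IBP_one (φ F : Sp → ℝ) (hφ : ContDiff ℝ 1 φ) (hF : ContDiff ℝ 1 F)
    (hs : HasCompactSupport F) (v : Sp) :
    ∫ p, φ p * fderiv ℝ F p v = -∫ p, fderiv ℝ φ p v * F p := by
  have := IBP_haar
  refine integral_mul_fderiv_eq_neg_fderiv_mul_of_integrable (IBP_int2 φ F hφ hF hs v)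
    (IBP_int1 φ F hφ hF hs v) ?_ (fun x _ => (hφ.differentiable (by norm_num)) x)
    (fun x _ => (hF.differentiable (by norm_num)) x)
  exact Continuous.integrable_of_hasCompactSupport (hφ.continuous.mul hF.continuous) hs.mul_left

/-- the vertical component -/
def IBP_F (τ : ℝ) (Y : VF) (p : Sp) : ℝ := -(τ * p.2.1) * Y.a p + τ * p.1 * Y.b p + Y.c p

theorem IBP_F_smooth (τ : ℝ) (Y : VF) (κ : ℝ) (hY : C1c κ Y) : ContDiff ℝ 1 (IBP_F τ Y) := by
  have h1 := hY.ca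
  have h2 := hY.cb
  have h3 := hY.cc
  have e1 : ContDiff ℝ 1 (fun p : Sp => -(τ * p.2.1)) := by fun_prop
  have e2 : ContDiff ℝ 1 (fun p : Sp => τ * p.1) := by fun_prop
  exact ((e1.mul h1).add (e2.mul h2)).add h3

theorem IBP_F_cs (τ : ℝ) (Y : VF) (κ : ℝ) (hY : C1c κ Y) : HasCompactSupport (IBP_F τ Y) := by
  have h1 : HasCompactSupport (fun p : Sp => -(τ * p.2.1) * Y.a p) := hY.sa.mul_left
  have h2 : HasCompactSupport (fun p : Sp => τ * p.1 * Y.b p) := hY.sb.mul_left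
  exact (h1.add h2).add hY.sc

theorem IBP_F_ts (τ : ℝ) (Y : VF) (κ : ℝ) (hY : C1c κ Y) : tsupport (IBP_F τ Y) ⊆ space κ := by
  have h1 : tsupport (IBP_F τ Y) ⊆ tsupport Y.a ∪ tsupport Y.b ∪ tsupport Y.c := by
    refine closure_minimal ?_ (((isClosed_tsupport _).union (isClosed_tsupport _)).union
      (isClosed_tsupport _))
    intro p hp
    by_contra hcon
    rw [mem_union, mem_union, not_or, not_or] at hcon
    apply hp
    show -(τ * p.2.1) * Y.a p + τ * p.1 * Y.b p + Y.c p = 0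
    rw [image_eq_zero_of_notMem_tsupport hcon.1.1, image_eq_zero_of_notMem_tsupport hcon.1.2,
      image_eq_zero_of_notMem_tsupport hcon.2]
    ring
  exact h1.trans (union_subset (union_subset hY.ia hY.ib) hY.ic)

/-- the third function -/
noncomputable def IBP_G (κ τ : ℝ) (Y : VF) (p : Sp) : ℝ :=
  lam κ (nq (pr p)) * (lam κ (nq (pr p)) * IBP_F τ Y p)

theorem IBP_G_smooth (κ τ : ℝ) (Y : VF) (hY : C1c κ Y) : ContDiff ℝ 1 (IBP_G κ τ Y) :=
  IBP_smooth κ (fun p : Sp => lam κ (nq (pr p)) * IBP_F τ Y p)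
    (IBP_smooth κ _ (IBP_F_smooth τ Y κ hY) (IBP_F_ts τ Y κ hY))
    (IBP_ts (fun p : Sp => lam κ (nq (pr p))) _ κ (IBP_F_ts τ Y κ hY))

theorem IBP_G_cs (κ τ : ℝ) (Y : VF) (hY : C1c κ Y) : HasCompactSupport (IBP_G κ τ Y) :=
  IBP_cs (g := fun p : Sp => lam κ (nq (pr p)))
    (IBP_cs (g := fun p : Sp => lam κ (nq (pr p))) (IBP_F_cs τ Y κ hY))

theorem IBP_G_der (κ τ : ℝ) (Y : VF) (hY : C1c κ Y) (p : Sp) :
    fderiv ℝ (IBP_G κ τ Y) p (0, 0, 1) = lam κ (nq (pr p)) ^ 2 *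
      (-(τ * p.2.1) * fderiv ℝ Y.a p (0, 0, 1) + τ * p.1 * fderiv ℝ Y.b p (0, 0, 1) +
        fderiv ℝ Y.c p (0, 0, 1)) := by
  have h0 : HasDerivAt (fun t : ℝ => IBP_G κ τ Y (p + t • ((0, 0, 1) : Sp)))
      (fderiv ℝ (IBP_G κ τ Y) p (0, 0, 1)) 0 :=
    (((IBP_G_smooth κ τ Y hY).differentiable (by norm_num)) p).hasFDerivAt.hasLineDerivAt _
  have ha : HasDerivAt (fun t : ℝ => Y.a (p + t • ((0, 0, 1) : Sp)))
      (fderiv ℝ Y.a p (0, 0, 1)) 0 :=
    ((hY.ca.differentiable (by norm_num)) p).hasFDerivAt.hasLineDerivAt _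
  have hb : HasDerivAt (fun t : ℝ => Y.b (p + t • ((0, 0, 1) : Sp)))
      (fderiv ℝ Y.b p (0, 0, 1)) 0 :=
    ((hY.cb.differentiable (by norm_num)) p).hasFDerivAt.hasLineDerivAt _
  have hc : HasDerivAt (fun t : ℝ => Y.c (p + t • ((0, 0, 1) : Sp)))
      (fderiv ℝ Y.c p (0, 0, 1)) 0 :=
    ((hY.cc.differentiable (by norm_num)) p).hasFDerivAt.hasLineDerivAt _
  have h1 := (((ha.const_mul (-(τ * p.2.1))).add (hb.const_mul (τ * p.1))).add hc).const_mul
    (lam κ (nq (pr p)) ^ 2)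
  have e : ∀ t : ℝ, IBP_G κ τ Y (p + t • ((0, 0, 1) : Sp)) = lam κ (nq (pr p)) ^ 2 *
      (-(τ * p.2.1) * Y.a (p + t • ((0, 0, 1) : Sp)) + τ * p.1 * Y.b (p + t • ((0, 0, 1) : Sp)) +
        Y.c (p + t • ((0, 0, 1) : Sp))) := by
    intro t
    have e1 : (p + t • ((0, 0, 1) : Sp)).1 = p.1 := by simp
    have e2 : (p + t • ((0, 0, 1) : Sp)).2.1 = p.2.1 := by simp
    have e3 : pr (p + t • ((0, 0, 1) : Sp)) = pr p := by
      unfold pr
      rw [e1, e2]
    unfold IBP_G IBP_F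
    rw [e1, e2, e3]
    ring
  have h2 : HasDerivAt (fun t : ℝ => IBP_G κ τ Y (p + t • ((0, 0, 1) : Sp)))
      (lam κ (nq (pr p)) ^ 2 * (-(τ * p.2.1) * fderiv ℝ Y.a p (0, 0, 1) +
        τ * p.1 * fderiv ℝ Y.b p (0, 0, 1) + fderiv ℝ Y.c p (0, 0, 1))) 0 := by
    refine h1.congr_of_eventuallyEq (Filter.Eventually.of_forall fun t => ?_)
    exact e t
  exact h0.unique h2

theorem IBP : IBP_stmt := by
  intro κ τ Y φ hY hφ
  set A : Sp → ℝ := fun q => lam κ (nq (pr q)) * Y.a q with hA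
  set B : Sp → ℝ := fun q => lam κ (nq (pr q)) * Y.b q with hB
  have sA : ContDiff ℝ 1 A := IBP_smooth κ Y.a hY.ca hY.ia
  have sB : ContDiff ℝ 1 B := IBP_smooth κ Y.b hY.cb hY.ib
  have sG := IBP_G_smooth κ τ Y hY
  have cA : HasCompactSupport A := IBP_cs (g := fun p : Sp => lam κ (nq (pr p))) hY.sa
  have cB : HasCompactSupport B := IBP_cs (g := fun p : Sp => lam κ (nq (pr p))) hY.sb
  have cG := IBP_G_cs κ τ Y hY
  have e1 : (fun p => φ p * dv κ τ Y p) = fun p => (φ p * fderiv ℝ A p (1, 0, 0) +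
      φ p * fderiv ℝ B p (0, 1, 0)) + φ p * fderiv ℝ (IBP_G κ τ Y) p (0, 0, 1) := by
    funext p
    rw [IBP_G_der κ τ Y hY p]
    unfold dv
    ring
  have e2 : (fun p => lam κ (nq (pr p)) * (Y.a p * fderiv ℝ φ p (1, 0, 0) +
      Y.b p * fderiv ℝ φ p (0, 1, 0)) + lam κ (nq (pr p)) ^ 2 *
      ((-(τ * p.2.1) * Y.a p + τ * p.1 * Y.b p + Y.c p) * fderiv ℝ φ p (0, 0, 1))) =
      fun p => (fderiv ℝ φ p (1, 0, 0) * A p + fderiv ℝ φ p (0, 1, 0) * B p) +
        fderiv ℝ φ p (0, 0, 1) * IBP_G κ τ Y p := by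
    funext p
    rw [hA, hB]
    unfold IBP_G IBP_F
    ring
  have i1 := IBP_int1 φ A hφ sA cA (1, 0, 0)
  have i2 := IBP_int1 φ B hφ sB cB (0, 1, 0)
  have i3 := IBP_int1 φ _ hφ sG cG (0, 0, 1)
  have j1 := IBP_int2 φ A hφ sA cA (1, 0, 0)
  have j2 := IBP_int2 φ B hφ sB cB (0, 1, 0)
  have j3 := IBP_int2 φ _ hφ sG cG (0, 0, 1)
  have i12 : Integrable (fun p => φ p * fderiv ℝ A p (1, 0, 0) +
      φ p * fderiv ℝ B p (0, 1, 0)) := i1.add i2
  have j12 : Integrable (fun p => fderiv ℝ φ p (1, 0, 0) * A p +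
      fderiv ℝ φ p (0, 1, 0) * B p) := j1.add j2
  rw [e1, e2, integral_add i12 i3, integral_add i1 i2, integral_add j12 j3, integral_add j1 j2,
    IBP_one φ A hφ sA cA, IBP_one φ B hφ sB cB, IBP_one φ _ hφ sG cG]
  ring

end Pool.Agent.helper75.IQ
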